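import Pool.Agent.Lib.MP_718c62_al.Grid
import Pool.Agent.Lib.MP_718c62_al.Bits

/-!
# A monomial ideal with `pdim S/I = k - 1` and `spdim S/I < pdim S/I`

For every field `K`, let `S` be the polynomial ring in the nine variables `x_{ij}`,
`i, j ∈ {0, 1, 2}`, and let `I` be generated by the three row products and the three column
products of the `3 × 3` grid. Then `I` has `k = 6` minimal generators, `pdim S/I = 5 = k - 1` and
`spdim S/I = 4`.
-/

set_option autoImplicit false

open CategoryTheory Abelian MvPolynomial
open Pool.Agent.Lib.MP_718c62_al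

universe u

namespace Pool.Agent.Results.MP_718c62_al.PdimKMinusOne

/-- The generators as bit masks: three rows, three columns. -/
def G : List ℕ := [7, 56, 448, 73, 146, 292]

/-- The intervals `[F, Z]` (as bit masks) of a partition of the set of squarefree monomials not
in `I`. -/
def P : List (ℕ × ℕ) := [(90, 94), (70, 110), (65, 115), (69, 117), (22, 118), (152, 157),
  (0, 171), (5, 173), (6, 174), (20, 181), (198, 206), (193, 213), (216, 220), (195, 227),
  (225, 229), (230, 230), (64, 234), (4, 236), (241, 241), (80, 244), (19, 283), (25, 285),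
  (26, 286), (256, 299), (51, 307), (320, 334), (339, 339), (325, 341), (276, 342), (346, 346),
  (24, 348), (321, 355), (352, 362), (336, 369), (18, 370), (384, 395), (260, 397), (262, 398),
  (277, 405), (408, 409), (404, 412), (416, 419), (424, 425), (426, 426), (16, 433), (238, 238),
  (245, 245), (350, 350), (371, 371), (413, 413), (427, 427)]

/-- A facet with five elements. -/
def T : Finset (Fin 9) := {0, 4, 5, 7, 8}

lemma check_ok : check 9 G P = true := by decide +kernel

lemma facet : ∀ i : Fin 9, i ∉ T → ∃ g ∈ G.map (ofMask 9), g ⊆ insert i T := by decide +kernel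

lemma facet' : ¬ ∃ g ∈ G.map (ofMask 9), g ⊆ T := by decide +kernel

lemma tops : ∀ p ∈ P, T.card ≤ (ofMask 9 p.2).card := by decide +kernel

variable (K : Type u) [Field K]

lemma sdepth_eq5 : sdepth (mono K ((G.map (ofMask 9)).map indv)) = 5 := by
  have h := sdepth_of_check (n := 9) K G P check_ok T (fun s hs hs' => by
    by_contra hne
    obtain ⟨i, hi, hiT⟩ := Finset.exists_of_ssubset (Finset.ssubset_iff_subset_ne.2 ⟨hs, Ne.symm hne⟩)
    obtain ⟨g, hg, hgi⟩ := facet i hiT
    exact hs' ⟨g, hg, hgi.trans (Finset.insert_subset hi hs)⟩) facet' tops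
  exact h

lemma ideal_eq : mono K ((G.map (ofMask 9)).map indv) = mono K Grid.J6 := by
  apply mono_congr <;> decide +kernel

/-- For every field `K` there is a monomial ideal `I` in nine variables over `K` with exactly
`k = 6` minimal monomial generators, `pdim S/I = 5 = k - 1` and `spdim S/I = 4 ≠ pdim S/I`. -/
theorem result (K : Type u) [Field K] :
    ∃ I : Ideal (MvPolynomial (Fin 9) K), I ≠ ⊥ ∧ I ≠ ⊤ ∧ IsMonomialIdeal I ∧
      (minimalGenerators I).ncard = 6 ∧
      projectiveDimension (ModuleCat.of (MvPolynomial (Fin 9) K) (MvPolynomial (Fin 9) K ⧸ I)) = 5 ∧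
      spdim I = 4 := by
  refine ⟨mono K ((G.map (ofMask 9)).map indv), mono_ne_bot K _ (indv (ofMask 9 7)) (by decide +kernel),
    mono_ne_top K _ (by decide +kernel), isMonomialIdeal_mono K _, ?_, ?_, ?_⟩
  · rw [ncard_minimalGenerators_mono K _ (by decide +kernel) (by decide +kernel)]
    rfl
  · rw [ideal_eq]
    exact Grid.pdim K
  · unfold spdim
    rw [sdepth_eq5]

end Pool.Agent.Results.MP_718c62_al.PdimKMinusOne
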