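import Pool.Agent.Lib.MP_718c62_al.Stanley

/-!
# A monomial ideal with `pdim S/I = k - 2` and `spdim S/I < pdim S/I`

For every field `K`, the ideal `I = (a, b, c)(d, e)` of `S = K[a, b, c, d, e]` has `k = 6` minimal
monomial generators, `pdim S/I = 4 = k - 2` and `spdim S/I = 3`.

* `pdim`: from `0 → S/I → S/(a,b,c) × S/(d,e) → S/(a,b,c,d,e) → 0`.
* `spdim`: the non-faces/faces poset is partitioned by the intervals
  `[∅, de], [a, ab], [b, bc], [c, ac], [abc, abc]`, and `de` is a facet.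
-/

set_option autoImplicit false

open CategoryTheory Abelian MvPolynomial
open Pool.Agent.Lib.MP_718c62_al

universe u

namespace Pool.Agent.Results.MP_718c62_al.PdimKMinusTwo

/-- The generators `ad, ae, bd, be, cd, ce` (as sets of variables). -/
def gens : List (Finset (Fin 5)) := [{0, 3}, {0, 4}, {1, 3}, {1, 4}, {2, 3}, {2, 4}]

/-- bottoms of the intervals -/
def botF : Fin 5 → Finset (Fin 5) := ![∅, {0}, {1}, {2}, {0, 1, 2}]

/-- tops of the intervals -/
def topF : Fin 5 → Finset (Fin 5) := ![{3, 4}, {0, 1}, {1, 2}, {0, 2}, {0, 1, 2}]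

/-- the variable `x i` -/
def v (i : Fin 5) : Fin 5 → ℕ := indv {i}

variable (K : Type u) [Field K]

lemma sdepth_gens : sdepth (mono K (gens.map indv)) = 2 := by
  have h := sdepth_eq K gens {3, 4} (by decide) (by decide) botF topF (by decide) (by decide)
    (by decide) (by decide)
  exact h

lemma inf_eq : mono K [v 0, v 1, v 2] ⊓ mono K [v 3, v 4] = mono K (gens.map indv) := by
  rw [mono_inf]
  apply mono_congr <;> decide

lemma sup_eq : mono K [v 0, v 1, v 2] ⊔ mono K [v 3, v 4] = mono K [v 0, v 1, v 2, v 3, v 4] := by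
  rw [mono_sup]
  rfl

lemma mem_top (i : Fin 5) : monomial (vec (v i)) (1 : K) ∈ mono K [v 0, v 1, v 2, v 3, v 4] := by
  rw [monomial_mem_mono]
  exact ⟨v i, by fin_cases i <;> decide, le_refl _⟩

lemma top_ne_top : mono K [v 0, v 1, v 2, v 3, v 4] ≠ ⊤ := by
  apply mono_ne_top
  decide

lemma not_lt_max : ¬ HasProjectiveDimensionLT (quo (mono K [v 0, v 1, v 2, v 3, v 4])) 5 := by
  apply not_lt_of_ext_ne_zero _ (quo (mono K [v 0, v 1, v 2, v 3, v 4])) 5
  have hN : ∀ i, (monomial (vec (v i)) (1 : K) • 𝟙 (quo (mono K [v 0, v 1, v 2, v 3, v 4]))) = 0 :=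
    fun i => smul_id_eq_zero _ _ (mem_top K i)
  have h0 : ∃ e : Ext (quo (mono K ([] : List (Fin 5 → ℕ))))
      (quo (mono K [v 0, v 1, v 2, v 3, v 4])) 0, e ≠ 0 :=
    ext_zero_ne_zero _ _ (by rw [mono_nil]; exact bot_le) (top_ne_top K)
  have h1 := ext_step_mono K _ (v 4) (by decide) _ (hN 4) _ h0
  have h2 := ext_step_mono K _ (v 3) (by decide) _ (hN 3) _ h1
  have h3 := ext_step_mono K _ (v 2) (by decide) _ (hN 2) _ h2
  have h4 := ext_step_mono K _ (v 1) (by decide) _ (hN 1) _ h3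
  exact ext_step_mono K _ (v 0) (by decide) _ (hN 0) _ h4

lemma lt_max : HasProjectiveDimensionLT (quo (mono K [v 0, v 1, v 2, v 3, v 4])) 6 :=
  lt_length K _

lemma ltA (n : ℕ) (hn : 4 ≤ n) : HasProjectiveDimensionLT (quo (mono K [v 0, v 1, v 2])) n := by
  have := lt_length K [v 0, v 1, v 2]
  exact hasProjectiveDimensionLT_of_ge _ 4 _ hn

lemma ltB (n : ℕ) (hn : 3 ≤ n) : HasProjectiveDimensionLT (quo (mono K [v 3, v 4])) n := by
  have := lt_length K [v 3, v 4]
  exact hasProjectiveDimensionLT_of_ge _ 3 _ hn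

lemma pd_le : HasProjectiveDimensionLT (quo (mono K (gens.map indv))) 5 := by
  rw [← inf_eq]
  apply mv_lt_inf
  · rw [sup_eq]; exact lt_max K
  · exact ltA K 5 (by norm_num)
  · exact ltB K 5 (by norm_num)

lemma pd_ge : ¬ HasProjectiveDimensionLT (quo (mono K (gens.map indv))) 4 := by
  intro h
  apply not_lt_max K
  rw [← sup_eq]
  apply mv_lt_sup
  · rw [inf_eq]; exact h
  · exact ltA K 5 (by norm_num)
  · exact ltB K 5 (by norm_num)

/-- **Disproof of Q1.** For every field `K` there is a monomial ideal `I` in `S = K[x_1,…,x_5]`,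
namely `(x_1, x_2, x_3)(x_4, x_5)`, with exactly `k = 6` minimal monomial generators,
`pdim S/I = 4 = k - 2` and `spdim S/I = 3 ≠ pdim S/I`. -/
theorem result (K : Type u) [Field K] :
    ∃ I : Ideal (MvPolynomial (Fin 5) K), I ≠ ⊥ ∧ I ≠ ⊤ ∧ IsMonomialIdeal I ∧
      (minimalGenerators I).ncard = 6 ∧
      projectiveDimension (ModuleCat.of (MvPolynomial (Fin 5) K) (MvPolynomial (Fin 5) K ⧸ I)) = 4 ∧
      spdim I = 3 := by
  refine ⟨mono K (gens.map indv), mono_ne_bot K _ (indv {0, 3}) (by decide),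
    mono_ne_top K _ (by decide), isMonomialIdeal_mono K _, ?_, ?_, ?_⟩
  · rw [ncard_minimalGenerators_mono K _ (by decide) (by decide)]
    rfl
  · apply le_antisymm
    · have h := (projectiveDimension_le_iff (quo (mono K (gens.map indv))) 4).2 (pd_le K)
      exact h
    · have h := (projectiveDimension_ge_iff (quo (mono K (gens.map indv))) 4).2 (pd_ge K)
      exact h
  · unfold spdim
    rw [sdepth_gens]

end Pool.Agent.Results.MP_718c62_al.PdimKMinusTwo
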